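import Pool.Agent.H44R2.Stk.Defs

/-!
# T6: coefficients of the logarithmic derivative
-/

set_option autoImplicit false

namespace Pool.Agent.H61R2.Stk

open Finset Filter Topology
open Pool.Agent.H44R2.Stk

open PowerSeries in
theorem psi_conv (φ : ℕ → ℂ) (a : ℕ → ℂ) (r : ℂ) (ψ : ℕ → ℂ) (h0 : ψ 0 = φ 0)
    (hs : ∀ n, ψ (n + 1) = r * ψ n + φ (n + 1))
    (ha : ∀ n, ∑ j ∈ range (n + 1), a j * φ (n - j) = -((n : ℂ) + 1) * φ (n + 1)) :
    ∀ n, ∑ j ∈ range (n + 1), (a j - r ^ (j + 1)) * ψ (n - j) = -((n : ℂ) + 1) * ψ (n + 1) := by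
  set A : ℂ⟦X⟧ := PowerSeries.mk a with hA
  set P : ℂ⟦X⟧ := PowerSeries.mk φ with hP
  set Q : ℂ⟦X⟧ := PowerSeries.mk ψ with hQ
  set R : ℂ⟦X⟧ := PowerSeries.mk (fun n => r ^ (n + 1)) with hR
  have e1 : P = Q - PowerSeries.C r * (X * Q) := by
    ext n
    rw [map_sub, PowerSeries.coeff_C_mul]
    cases n with
    | zero => simp [hP, hQ, h0]
    | succ n =>
      rw [PowerSeries.coeff_succ_X_mul, hP, hQ, PowerSeries.coeff_mk, PowerSeries.coeff_mk,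
        PowerSeries.coeff_mk, hs]
      ring
  have e2 : A * P = - PowerSeries.derivative ℂ P := by
    ext n
    rw [PowerSeries.coeff_mul, map_neg, PowerSeries.coeff_derivative, hA, hP]
    simp only [PowerSeries.coeff_mk]
    rw [Finset.Nat.sum_antidiagonal_eq_sum_range_succ (fun i j => a i * φ j) n, ha n]
    ring
  have e3 : R - PowerSeries.C r * (X * R) = PowerSeries.C r := by
    ext n
    rw [map_sub, PowerSeries.coeff_C_mul]
    cases n with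
    | zero => simp [hR]
    | succ n =>
      rw [PowerSeries.coeff_succ_X_mul, hR, PowerSeries.coeff_mk, PowerSeries.coeff_mk,
        PowerSeries.coeff_C]
      simp
      ring
  have e4 : (1 - PowerSeries.C r * X : ℂ⟦X⟧) ≠ 0 := by
    intro h
    have := congrArg (PowerSeries.coeff 0) h
    simp at this
  have e5 : (A - R) * Q = - PowerSeries.derivative ℂ Q := by
    have e6 : PowerSeries.derivative ℂ P = PowerSeries.derivative ℂ Q -
        PowerSeries.C r * (Q + X * PowerSeries.derivative ℂ Q) := by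
      rw [e1, map_sub, Derivation.leibniz, Derivation.leibniz, PowerSeries.derivative_C,
        PowerSeries.derivative_X]
      simp only [smul_eq_mul]
      ring
    apply mul_left_cancel₀ e4
    rw [e6] at e2
    rw [e1] at e2
    linear_combination e2 - Q * e3
  intro n
  have e7 := congrArg (PowerSeries.coeff n) e5
  rw [PowerSeries.coeff_mul, map_neg, PowerSeries.coeff_derivative, hA, hQ, hR] at e7
  simp only [map_sub, PowerSeries.coeff_mk] at e7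
  rw [Finset.Nat.sum_antidiagonal_eq_sum_range_succ (fun i j => (a i - r ^ (i + 1)) * ψ j) n] at e7
  rw [e7]
  ring

theorem geo (n : ℕ) : ∑ j ∈ range n, (2 / 3 : ℝ) ^ j * (1 / 2) ^ (n - j) ≤ 3 * (2 / 3) ^ n := by
  induction n with
  | zero => simp
  | succ n ih =>
    rw [Finset.sum_range_succ]
    have : ∑ j ∈ range n, (2 / 3 : ℝ) ^ j * (1 / 2) ^ (n + 1 - j) =
        (1 / 2) * ∑ j ∈ range n, (2 / 3 : ℝ) ^ j * (1 / 2) ^ (n - j) := by
      rw [Finset.mul_sum]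
      apply Finset.sum_congr rfl
      intro j hj
      rw [Finset.mem_range] at hj
      rw [show n + 1 - j = (n - j) + 1 by omega, pow_succ]
      ring
    rw [this, show n + 1 - n = 1 by omega, pow_one, pow_succ (2 / 3 : ℝ) n]
    nlinarith [ih]

theorem lin (n : ℕ) : ((n : ℝ) + 1) * (1 / 2) ^ (n + 1) ≤ 3 / 2 * (2 / 3) ^ n := by
  have h1 : 1 + (n : ℝ) * (1 / 3) ≤ (1 + 1 / 3) ^ n :=
    one_add_mul_le_pow (by norm_num) n
  have h2 : ((1 + 1 / 3 : ℝ)) ^ n * (1 / 2) ^ n = (2 / 3) ^ n := by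
    rw [← mul_pow]
    norm_num
  have h3 : 0 < (1 / 2 : ℝ) ^ n := by positivity
  have h4 : (1 + (n : ℝ) * (1 / 3)) * (1 / 2) ^ n ≤ (2 / 3) ^ n := by
    rw [← h2]
    exact mul_le_mul_of_nonneg_right h1 h3.le
  rw [pow_succ]
  nlinarith

theorem coeff_bound : ∃ δ > 0, ∃ C > 0, ∀ t : ℂ, ‖t‖ ≤ δ → ∀ φ : ℕ → ℂ, Phi t φ →
    ∀ ρ : ℂ, 1 / 2 ≤ ‖ρ‖ → ‖ρ‖ ≤ 2 → HasSum (fun n => φ n * ρ ^ n) 0 →
    ∀ a : ℕ → ℂ, (∀ n, ∑ j ∈ range (n + 1), a j * φ (n - j) = -((n : ℂ) + 1) * φ (n + 1)) →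
    ∀ n, ‖a n - (ρ⁻¹) ^ (n + 1)‖ ≤ C * (2 / 3) ^ n := by
  refine ⟨Real.exp (-8) / 10, by positivity, 1, one_pos, ?_⟩
  intro t ht φ hφ ρ hρ1 hρ2 hsum a ha
  have hρ0 : ρ ≠ 0 := by
    intro h
    rw [h, norm_zero] at hρ1
    norm_num at hρ1
  have hρpos : 0 < ‖ρ‖ := norm_pos_iff.2 hρ0
  set ψ : ℕ → ℂ := fun n => (∑ j ∈ range (n + 1), φ j * ρ ^ j) * (ρ⁻¹) ^ n with hψ
  have hψ0 : ψ 0 = φ 0 := by simp [hψ]
  have hψs : ∀ n, ψ (n + 1) = ρ⁻¹ * ψ n + φ (n + 1) := by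
    intro n
    simp only [hψ]
    rw [Finset.sum_range_succ _ (n + 1), add_mul, mul_assoc (φ (n + 1)), ← mul_pow,
      mul_inv_cancel₀ hρ0, one_pow, mul_one, pow_succ]
    ring
  have hconv := psi_conv φ a ρ⁻¹ ψ hψ0 hψs ha
  -- the bound for ψ
  have hexp : ∀ x : ℝ, HasSum (fun n : ℕ => x ^ n / (n.factorial : ℝ)) (Real.exp x) := by
    intro x
    rw [Real.exp_eq_exp_ℝ]
    exact NormedSpace.expSeries_div_hasSum_exp x
  have hε : 2 * ‖t‖ * Real.exp 8 ≤ 1 / 5 := by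
    have h1 : ‖t‖ * Real.exp 8 ≤ Real.exp (-8) / 10 * Real.exp 8 :=
      mul_le_mul_of_nonneg_right ht (Real.exp_pos 8).le
    have h2 : Real.exp (-8) / 10 * Real.exp 8 = 1 / 10 := by
      rw [div_mul_eq_mul_div, ← Real.exp_add]
      norm_num
    linarith
  have hψb : ∀ n, ‖ψ (n + 1)‖ ≤ 1 / 5 * (1 / 2) ^ (n + 1) := by
    intro n
    have ht1 : HasSum (fun j => φ (j + (n + 2)) * ρ ^ (j + (n + 2)))
        (0 - ∑ j ∈ range (n + 2), φ j * ρ ^ j) := by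
      rw [hasSum_nat_add_iff (f := fun j => φ j * ρ ^ j) (n + 2)]
      simpa using hsum
    have hb : ∀ j, ‖φ (j + (n + 2)) * ρ ^ (j + (n + 2)) * (ρ⁻¹) ^ (n + 1)‖ ≤
        2 * ‖t‖ * (1 / 2) ^ (n + 1) * (8 ^ (j + (n + 2)) / ((j + (n + 2)).factorial : ℝ)) := by
      intro j
      have h1 := hφ.p2 (j + (n + 2)) (by omega)
      rw [norm_mul, norm_mul, norm_pow, norm_pow, norm_inv]
      have h2 : ‖ρ‖ ^ (j + (n + 2)) * ‖ρ‖⁻¹ ^ (n + 1) = ‖ρ‖ ^ (j + 1) := by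
        rw [show j + (n + 2) = (j + 1) + (n + 1) by ring, pow_add, mul_assoc, ← mul_pow,
          mul_inv_cancel₀ hρpos.ne', one_pow, mul_one]
      rw [mul_assoc, h2]
      have h3 : ‖ρ‖ ^ (j + 1) ≤ 2 ^ (j + 1) := pow_le_pow_left₀ (norm_nonneg _) hρ2 _
      have h4 : (2 : ℝ) ^ (j + 1) = 2 ^ (j + (n + 2)) * (1 / 2) ^ (n + 1) := by
        rw [show j + (n + 2) = (j + 1) + (n + 1) by ring, pow_add (2 : ℝ) (j + 1), mul_assoc,
          ← mul_pow]
        norm_num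
      calc ‖φ (j + (n + 2))‖ * ‖ρ‖ ^ (j + 1)
          ≤ (2 * ‖t‖ * 4 ^ (j + (n + 2)) / ((j + (n + 2)).factorial : ℝ)) * 2 ^ (j + 1) :=
            mul_le_mul h1 h3 (by positivity) (by positivity)
        _ = _ := by
            rw [h4, show (8 : ℝ) = 4 * 2 by norm_num, mul_pow]
            ring
    have hs8 : HasSum (fun j => 2 * ‖t‖ * (1 / 2) ^ (n + 1) *
        (8 ^ (j + (n + 2)) / ((j + (n + 2)).factorial : ℝ)))
        (2 * ‖t‖ * (1 / 2) ^ (n + 1) *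
          (Real.exp 8 - ∑ j ∈ range (n + 2), 8 ^ j / (j.factorial : ℝ))) := by
      apply HasSum.mul_left
      rw [hasSum_nat_add_iff (f := fun j => (8 : ℝ) ^ j / (j.factorial : ℝ)) (n + 2)]
      simpa using hexp 8
    have hψn : ψ (n + 1) = -((0 - ∑ j ∈ range (n + 2), φ j * ρ ^ j) * (ρ⁻¹) ^ (n + 1)) := by
      simp only [hψ]
      ring
    rw [hψn, norm_neg]
    have hle := HasSum.norm_le_of_bounded (ht1.mul_right ((ρ⁻¹) ^ (n + 1))) hs8 hb
    refine hle.trans ?_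
    have hpos : 0 ≤ ∑ j ∈ range (n + 2), (8 : ℝ) ^ j / (j.factorial : ℝ) :=
      Finset.sum_nonneg (fun j _ => by positivity)
    calc 2 * ‖t‖ * (1 / 2) ^ (n + 1) *
          (Real.exp 8 - ∑ j ∈ range (n + 2), 8 ^ j / (j.factorial : ℝ))
        ≤ 2 * ‖t‖ * (1 / 2) ^ (n + 1) * Real.exp 8 := by
          apply mul_le_mul_of_nonneg_left _ (by positivity)
          linarith
      _ = (2 * ‖t‖ * Real.exp 8) * (1 / 2) ^ (n + 1) := by ring
      _ ≤ 1 / 5 * (1 / 2) ^ (n + 1) := mul_le_mul_of_nonneg_right hε (by positivity)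
  intro n
  rw [one_mul]
  induction n using Nat.strong_induction_on with
  | _ n ih =>
    have h1 := hconv n
    rw [Finset.sum_range_succ, Nat.sub_self, hψ0, hφ.p0, mul_one] at h1
    have h2 : a n - ρ⁻¹ ^ (n + 1) = -((n : ℂ) + 1) * ψ (n + 1) -
        ∑ j ∈ range n, (a j - ρ⁻¹ ^ (j + 1)) * ψ (n - j) := by
      rw [← h1]
      ring
    rw [h2]
    have h3 : ‖-((n : ℂ) + 1) * ψ (n + 1)‖ ≤ 3 / 10 * (2 / 3) ^ n := by
      rw [norm_mul, norm_neg]
      have : ‖(n : ℂ) + 1‖ = (n : ℝ) + 1 := by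
        have := Complex.norm_natCast (n + 1)
        push_cast at this
        exact this
      rw [this]
      calc ((n : ℝ) + 1) * ‖ψ (n + 1)‖ ≤ ((n : ℝ) + 1) * (1 / 5 * (1 / 2) ^ (n + 1)) :=
            mul_le_mul_of_nonneg_left (hψb n) (by positivity)
        _ = 1 / 5 * (((n : ℝ) + 1) * (1 / 2) ^ (n + 1)) := by ring
        _ ≤ 1 / 5 * (3 / 2 * (2 / 3) ^ n) := mul_le_mul_of_nonneg_left (lin n) (by norm_num)
        _ = _ := by ring
    have h4 : ‖∑ j ∈ range n, (a j - ρ⁻¹ ^ (j + 1)) * ψ (n - j)‖ ≤ 3 / 5 * (2 / 3) ^ n := by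
      calc ‖∑ j ∈ range n, (a j - ρ⁻¹ ^ (j + 1)) * ψ (n - j)‖
          ≤ ∑ j ∈ range n, 1 / 5 * ((2 / 3 : ℝ) ^ j * (1 / 2) ^ (n - j)) := by
            apply (norm_sum_le _ _).trans
            apply Finset.sum_le_sum
            intro j hj
            rw [Finset.mem_range] at hj
            rw [norm_mul]
            have h5 : ‖ψ (n - j)‖ ≤ 1 / 5 * (1 / 2) ^ (n - j) := by
              obtain ⟨k, hk⟩ := Nat.exists_eq_add_of_lt hj
              rw [show n - j = k + 1 by omega]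
              exact hψb k
            calc ‖a j - ρ⁻¹ ^ (j + 1)‖ * ‖ψ (n - j)‖
                ≤ (2 / 3) ^ j * (1 / 5 * (1 / 2) ^ (n - j)) :=
                  mul_le_mul (ih j hj) h5 (norm_nonneg _) (by positivity)
              _ = _ := by ring
        _ = 1 / 5 * ∑ j ∈ range n, (2 / 3 : ℝ) ^ j * (1 / 2) ^ (n - j) := by
            rw [Finset.mul_sum]
        _ ≤ 1 / 5 * (3 * (2 / 3) ^ n) := mul_le_mul_of_nonneg_left (geo n) (by norm_num)
        _ = _ := by ring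
    have h6 : 0 < (2 / 3 : ℝ) ^ n := by positivity
    calc _ ≤ ‖-((n : ℂ) + 1) * ψ (n + 1)‖ +
          ‖∑ j ∈ range n, (a j - ρ⁻¹ ^ (j + 1)) * ψ (n - j)‖ := norm_sub_le _ _
      _ ≤ 3 / 10 * (2 / 3) ^ n + 3 / 5 * (2 / 3) ^ n := add_le_add h3 h4
      _ ≤ _ := by linarith

end Pool.Agent.H61R2.Stk
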